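import Pool.Agent.Y898.PolyGaps

set_option autoImplicit false

/-!
# Tuples of consecutive prime gaps at every scale, next to a record gap, as polynomial return times

Let `f(x) = log x (log₂ x)² log₄ x / (log₃ x)²`, the size of the largest gaps between consecutive
primes that are known to occur up to `x`.  Let `ℤ^e` be coloured with `K` colours, and let
`P_1, …, P_N` be vectors of `e` real polynomials in `k` variables of total degree at most `D`
without constant terms.  For every `H` with `1 ≤ H ≤ c f(x)` there are at least `x^(7/8)` clusters of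
`k + 1` consecutive primes up to `x` that follow a gap of size at least `c f(x)` and whose gaps
`d_1, …, d_k` are between `H` and `C H` such that

* all the numbers `P_{j,i}(d_1, …, d_k)` have distance less than `ε` from the integers, and
* for a set of points `a ∈ ℤ^e` of upper Banach density at least `η` all the points
  `a + [P_j(d_1, …, d_k)]`, `1 ≤ j ≤ N` (nearest integers) have the colour of `a`.

The constants `c`, `C`, `η` and `x₀` depend only on `k`, `K`, `N`, `D`, `ε` and on the number of
coordinates in which the polynomials are not integer valued; they do not depend on the coefficients,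
and for integer valued polynomials they do not depend on the dimension `e` either.  With
`H = c f(x)` all `k + 1` gaps have record size.

Examples (`H = c f(x)`): for every real `α` and `ε > 0` there are `x^(7/8)` pairs of consecutive
record gaps with `‖α d_1 d_2‖ < ε`, and `c` does not depend on `α`; in every finite colouring of the
integers many points `a` have the colour of all the points `a + μ_1 d_1 + … + μ_k d_k` and
`a + ∏ d_i ^ (m_i)`, `|μ_i| ≤ q`, `0 < ∑ m_i ≤ D`.

Method.  A finite form of the Milliken-Taylor theorem (`Y898.MTF`, by compactness from the infinite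
dimensional form of helper68), a recurrence theorem for polynomials in several variables along
increasing blocks with bounds that do not depend on the coefficients (`Y898.PR`, from the one
variable theorem of helper956), positive density by a covering argument (`Y898.Den`), and the record
sieve of helper101 (`TH101.RG.core`) in the form of `Y898.Engine2`, a variant of the engine of
helper709.
-/

namespace Pool.Agent.Results.MP_028722_nt.PolynomialRecurrenceAtGaps

/-- The record scale `f(x) = log x (log₂ x)² log₄ x / (log₃ x)²` (iterated natural logarithms). -/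
noncomputable def f (x : ℝ) : ℝ :=
  Real.log x * (Real.log (Real.log x)) ^ 2 * Real.log (Real.log (Real.log (Real.log x))) /
    (Real.log (Real.log (Real.log x))) ^ 2

/-- The `i`-th prime, numbered from `p 0 = 2`. -/
noncomputable def p (i : ℕ) : ℕ := Nat.nth Nat.Prime i

/-- The gap after the `i`-th prime. -/
noncomputable def d (i : ℕ) : ℤ := (p (i + 1) : ℤ) - p i

/-- The primes `p_n, …, p_(n+k)` are at most `x`, the `k` gaps between them are at least `H` and at
most `C H`, and the gap before `p_n` is at least `c f(x)`. -/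
def Cluster (c C x H : ℝ) (k n : ℕ) : Prop :=
  0 < n ∧ (p (n + k) : ℝ) ≤ x ∧ c * f x ≤ (d (n - 1) : ℝ) ∧
    ∀ i < k, H ≤ (d (n + i) : ℝ) ∧ (d (n + i) : ℝ) ≤ C * H

/-- The value of the polynomial `P` at the `k` gaps that follow `p_n`. -/
noncomputable def atGaps {k : ℕ} (P : MvPolynomial (Fin k) ℝ) (n : ℕ) : ℝ :=
  MvPolynomial.eval (fun l : Fin k => (d (n + l) : ℝ)) P

/-- The polynomial `P` takes integer values at all integer points. -/
def IntegerValued {k : ℕ} (P : MvPolynomial (Fin k) ℝ) : Prop :=
  ∀ v : Fin k → ℤ, ∃ u : ℤ, MvPolynomial.eval (fun l => (v l : ℝ)) P = u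

/-- There are arbitrarily large cubes `x + [0, N)^e` in which `A` has density at least `δ`; this
holds if the upper Banach density of `A` is greater than `δ`, and implies that it is at least `δ`. -/
def UpperDensity {e : ℕ} (A : Set (Fin e → ℤ)) (δ : ℝ) : Prop :=
  ∀ L : ℕ, ∃ N : ℕ, L ≤ N ∧ ∃ x : Fin e → ℤ,
    δ * (N : ℝ) ^ e ≤ (Set.ncard {v | v ∈ A ∧ ∀ i, x i ≤ v i ∧ v i < x i + N} : ℝ)

/-- a polynomial by its coefficients -/
theorem eval_eq {k D : ℕ} (P : MvPolynomial (Fin k) ℝ) (hP : P.totalDegree ≤ D)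
    (x : Fin k → ℝ) : MvPolynomial.eval x P = ∑ m : Fin k → Fin (D + 1),
      (∏ i, x i ^ (m i : ℕ)) * MvPolynomial.coeff
        (Finsupp.equivFunOnFinite.symm (fun i => (m i : ℕ))) P := by
  classical
  rw [MvPolynomial.eval_eq']
  have hinj : Function.Injective (fun m : Fin k → Fin (D + 1) =>
      (Finsupp.equivFunOnFinite.symm (fun i => (m i : ℕ)) : Fin k →₀ ℕ)) := by
    intro m m' h
    funext i
    have h1 := congrFun (Finsupp.equivFunOnFinite.symm.injective h) i
    exact Fin.ext h1
  have h1 : ∑ m : Fin k → Fin (D + 1), (∏ i, x i ^ (m i : ℕ)) * MvPolynomial.coeff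
        (Finsupp.equivFunOnFinite.symm (fun i => (m i : ℕ))) P =
      ∑ u ∈ Finset.univ.image (fun m : Fin k → Fin (D + 1) =>
        (Finsupp.equivFunOnFinite.symm (fun i => (m i : ℕ)) : Fin k →₀ ℕ)),
        MvPolynomial.coeff u P * ∏ i, x i ^ (u i) := by
    rw [Finset.sum_image (fun a _ b _ h => hinj h)]
    refine Finset.sum_congr rfl fun m _ => ?_
    rw [mul_comm]
    rfl
  rw [h1]
  apply Finset.sum_subset
  · intro u hu
    rw [Finset.mem_image]
    have h2 : ∀ i, u i < D + 1 := by
      intro i
      have h3 := MvPolynomial.le_totalDegree hu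
      have h4 : u i ≤ u.sum fun _ e => e := by
        by_cases hi : i ∈ u.support
        · exact Finset.single_le_sum (f := fun i => u i) (fun _ _ => Nat.zero_le _) hi
        · rw [Finsupp.notMem_support_iff.1 hi]
          exact Nat.zero_le _
      omega
    refine ⟨fun i => ⟨u i, h2 i⟩, Finset.mem_univ _, ?_⟩
    ext i
    rfl
  · intro u _ hu
    rw [MvPolynomial.notMem_support_iff.1 hu, zero_mul]

theorem cluster_of {c C x H : ℝ} {k n : ℕ} {Q : (Fin k → ℤ) → Prop}
    (h : n ∈ Pool.Agent.Y898.PolyGaps.Cl c C x H k Q) :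
    Cluster c C x H k n ∧ Q (fun l => d (n + l)) := by
  obtain ⟨h1, h2, h3, h4, h5⟩ := h
  refine ⟨⟨h1, h2, ?_, fun i hi => ?_⟩, h5⟩
  · unfold d p
    rw [Nat.sub_add_cancel h1]
    push_cast
    exact h3
  · unfold d p
    push_cast
    exact h4 i hi

theorem finite_of {x : ℝ} {k : ℕ} {S : Set ℕ} (h : ∀ n ∈ S, (p (n + k) : ℝ) ≤ x) : S.Finite := by
  refine (Set.finite_Iic ⌊x⌋₊).subset ?_
  intro n hn
  refine Nat.le_floor (le_trans ?_ (h n hn))
  have h2 : n + k ≤ Nat.nth Nat.Prime (n + k) :=
    (Nat.nth_strictMono Nat.infinite_setOfPred_prime).le_apply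
  exact_mod_cast (Nat.le_add_right n k).trans h2

/-- **Polynomial recurrence at tuples of consecutive prime gaps, at every scale next to a record
gap.**  For all `k`, `K`, `N`, `D`, `s` and `ε > 0` there are `η > 0`, `c > 0`, `C` and `x₀` such that
for all `x ≥ x₀`, all `H` with `1 ≤ H ≤ c f(x)`, every dimension `e`, every colouring `Ψ` of `ℤ^e` with
`K` colours and all vectors `P_1, …, P_N` of `e` real polynomials in `k` variables, of total degree at
most `D` and without constant terms, which are integer valued except in at most `s` coordinates: for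
at least `x^(7/8)` numbers `n` the primes `p_n, …, p_(n+k)` are at most `x`, the `k` gaps between them
are between `H` and `C H`, the gap before `p_n` is at least `c f(x)`, all the numbers
`P_{j,i}(d_n, …, d_(n+k-1))` have distance less than `ε` from the integers, and the points `a` that
have the same colour as all the points `a + [P_j(d_n, …, d_(n+k-1))]` (nearest integers) have upper
Banach density at least `η`. -/
theorem result (k K N D s : ℕ) (ε : ℝ) (hε : 0 < ε) : ∃ η : ℝ, 0 < η ∧ ∃ c C : ℝ, 0 < c ∧
    ∃ x₀ : ℝ, ∀ x : ℝ, x₀ ≤ x → ∀ H : ℝ, 1 ≤ H → H ≤ c * f x →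
    ∀ (e : ℕ) (Ψ : (Fin e → ℤ) → Fin K) (P : Fin N → Fin e → MvPolynomial (Fin k) ℝ),
    (∀ j i, (P j i).totalDegree ≤ D ∧ MvPolynomial.constantCoeff (P j i) = 0) →
    (∃ S : Finset (Fin e), S.card ≤ s ∧ ∀ i, i ∉ S → ∀ j, IntegerValued (P j i)) →
    x ^ (7 / 8 : ℝ) ≤ (Set.ncard {n : ℕ | Cluster c C x H k n ∧
      (∀ j i, |atGaps (P j i) n - round (atGaps (P j i) n)| < ε) ∧
      UpperDensity {a | ∀ j, Ψ (fun i => a i + round (atGaps (P j i) n)) = Ψ a} η} : ℝ) := by
  classical
  obtain ⟨η, hη, c, C, hc, -, h⟩ := Pool.Agent.Y898.PolyGaps.poly_gaps k K N D s ε hε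
  obtain ⟨x₀, hx₀⟩ := Filter.eventually_atTop.1 h
  refine ⟨η, hη, c, C, hc, x₀, fun x hx H hH hHc e Ψ P hP hS => ?_⟩
  obtain ⟨S, hSs, hSi⟩ := hS
  obtain ⟨cf, hcf⟩ : ∃ cf : Fin N → (Fin k → Fin (D + 1)) → (Fin e → ℝ), cf = fun j m i =>
      MvPolynomial.coeff (Finsupp.equivFunOnFinite.symm (fun i => (m i : ℕ))) (P j i) := ⟨_, rfl⟩
  have hev : ∀ j i (v : Fin k → ℝ), Pool.Agent.Y898.PR.ev (cf j) v i =
      MvPolynomial.eval v (P j i) := by
    intro j i v
    rw [eval_eq (P j i) (hP j i).1, hcf]
    unfold Pool.Agent.Y898.PR.ev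
    rw [Finset.sum_apply]
    rfl
  have h0 : ∀ j, cf j 0 = 0 := by
    intro j
    funext i
    rw [hcf]
    have h1 := (hP j i).2
    rw [MvPolynomial.constantCoeff_eq] at h1
    have h2 : (Finsupp.equivFunOnFinite.symm
        (fun i => (((0 : Fin k → Fin (D + 1)) i : Fin (D + 1)) : ℕ)) : Fin k →₀ ℕ) = 0 := by
      ext i
      rfl
    exact (congrArg (fun u => MvPolynomial.coeff u (P j i)) h2).trans h1
  refine (hx₀ x hx H hH hHc e cf h0 S hSs (fun i hi j v => ?_) Ψ).trans ?_
  · rw [hev]
    exact hSi i hi j v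
  rw [Nat.cast_le]
  refine Set.ncard_le_ncard ?_ (finite_of (k := k) fun n hn => hn.1.2.1)
  intro n hn
  obtain ⟨h1, h2, h3⟩ := cluster_of hn
  simp only [hev] at h2 h3
  exact ⟨h1, h2, h3⟩

/-- The special case of fractional parts: `N` real polynomials in `k` variables are close to integers
at the same time; the constants do not depend on the coefficients. -/
theorem fractional_parts (k N D : ℕ) (ε : ℝ) (hε : 0 < ε) : ∃ c C : ℝ, 0 < c ∧
    ∃ x₀ : ℝ, ∀ x : ℝ, x₀ ≤ x → ∀ H : ℝ, 1 ≤ H → H ≤ c * f x →
    ∀ P : Fin N → MvPolynomial (Fin k) ℝ,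
    (∀ j, (P j).totalDegree ≤ D ∧ MvPolynomial.constantCoeff (P j) = 0) →
    x ^ (7 / 8 : ℝ) ≤ (Set.ncard {n : ℕ | Cluster c C x H k n ∧
      ∀ j, |atGaps (P j) n - round (atGaps (P j) n)| < ε} : ℝ) := by
  obtain ⟨η, hη, c, C, hc, x₀, h⟩ := result k 1 1 D N ε hε
  refine ⟨c, C, hc, x₀, fun x hx H hH hHc P hP => (h x hx H hH hHc N (fun _ => 0) (fun _ => P)
    (fun _ i => hP i) ⟨Finset.univ, by simp, fun i hi => absurd (Finset.mem_univ i) hi⟩).trans ?_⟩
  rw [Nat.cast_le]
  refine Set.ncard_le_ncard ?_ (finite_of (k := k) fun n hn => hn.1.2.1)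
  rintro n ⟨h1, h2, -⟩
  exact ⟨h1, fun j => h2 0 j⟩

end Pool.Agent.Results.MP_028722_nt.PolynomialRecurrenceAtGaps
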