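import Pool.Agent.Y898.SzMulti

set_option autoImplicit false

/-!
# Generalised arithmetic progressions whose sides are consecutive prime gaps next to a record gap

Let `f(x) = log x (log₂ x)² log₄ x / (log₃ x)²`, the size of the largest gaps between consecutive
primes that are known to occur up to `x`.  Let `A ⊆ ℤ^e` have upper Banach density greater than
`δ > 0` and let `L_0, …, L_l` be linear maps `ℤ^k → ℤ^e`.  For every `H` with `1 ≤ H ≤ c f(x)` there are
at least `x^(7/8)` clusters of `k + 1` consecutive primes up to `x` that follow a gap of size at least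
`c f(x)`, whose gaps `d_1, …, d_k` are between `H` and `C H` and for which the set of the points `a` with

`a + L_t(d_1, …, d_k) ∈ A` for all `t = 0, …, l` (the same `a` for all `t`)

has upper Banach density at least `η > 0`.  The constants `c`, `C`, `η` and `x₀` depend only on `k`,
`l` and `δ`.  With `H = c f(x)` all `k + 1` gaps have record size.

Examples: every set of integers of positive upper density contains generalised arithmetic
progressions `{a + μ_1 d_1 + … + μ_k d_k : |μ_i| ≤ q}` of rank `k` whose `k` sides are consecutive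
prime gaps of record size; every dense set in `ℤ^k` contains the vertices of boxes with these sides.
The theorem `MP_3bc45c_nt.SzemerediRecordGaps` of helper709 is for configurations `a + m F` with one
parameter `m` from the sums of the gaps, at the record scale.

Method.  A finite form of the Milliken-Taylor theorem (`Y898.MTF`, by compactness from the infinite
dimensional form of helper68) applied to the tuples that have this property; that they occur in the
sums of every long sequence of blocks follows from the density Hales-Jewett theorem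
(`H602R3.DHJ.dhj`) in the form of helper709 (`TH709.RGap.ipr`) by induction on `k`; the record sieve
of helper101 (`TH101.RG.core`) in the form of `Y898.Engine2`, a variant of the engine of helper709.
-/

namespace Pool.Agent.Results.MP_f9960f_nt.ProgressionsWithGapsAsSides

/-- The record scale `f(x) = log x (log₂ x)² log₄ x / (log₃ x)²` (iterated natural logarithms). -/
noncomputable def f (x : ℝ) : ℝ :=
  Real.log x * (Real.log (Real.log x)) ^ 2 * Real.log (Real.log (Real.log (Real.log x))) /
    (Real.log (Real.log (Real.log x))) ^ 2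

/-- The `i`-th prime, numbered from `p 0 = 2`. -/
noncomputable def p (i : ℕ) : ℕ := Nat.nth Nat.Prime i

/-- The gap after the `i`-th prime. -/
noncomputable def d (i : ℕ) : ℤ := (p (i + 1) : ℤ) - p i

/-- The primes `p_n, …, p_(n+k)` are at most `x`, the `k` gaps between them are at least `H` and at
most `C H`, and the gap before `p_n` is at least `c f(x)`. -/
def Cluster (c C x H : ℝ) (k n : ℕ) : Prop :=
  0 < n ∧ (p (n + k) : ℝ) ≤ x ∧ c * f x ≤ (d (n - 1) : ℝ) ∧
    ∀ i < k, H ≤ (d (n + i) : ℝ) ∧ (d (n + i) : ℝ) ≤ C * H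

/-- There are arbitrarily large cubes `x + [0, N)^e` in which `A` has density at least `δ`; this
holds if the upper Banach density of `A` is greater than `δ`, and implies that it is at least `δ`. -/
def UpperDensity {e : ℕ} (A : Set (Fin e → ℤ)) (δ : ℝ) : Prop :=
  ∀ L : ℕ, ∃ N : ℕ, L ≤ N ∧ ∃ x : Fin e → ℤ,
    δ * (N : ℝ) ^ e ≤ (Set.ncard {v | v ∈ A ∧ ∀ i, x i ≤ v i ∧ v i < x i + N} : ℝ)

theorem cluster_of {c C x H : ℝ} {k n : ℕ} {Q : (Fin k → ℤ) → Prop}
    (h : n ∈ Pool.Agent.Y898.PolyGaps.Cl c C x H k Q) :
    Cluster c C x H k n ∧ Q (fun l => d (n + l)) := by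
  obtain ⟨h1, h2, h3, h4, h5⟩ := h
  refine ⟨⟨h1, h2, ?_, fun i hi => ?_⟩, h5⟩
  · unfold d p
    rw [Nat.sub_add_cancel h1]
    push_cast
    exact h3
  · unfold d p
    push_cast
    exact h4 i hi

theorem finite_of {x : ℝ} {k : ℕ} {S : Set ℕ} (h : ∀ n ∈ S, (p (n + k) : ℝ) ≤ x) : S.Finite := by
  refine (Set.finite_Iic ⌊x⌋₊).subset ?_
  intro n hn
  refine Nat.le_floor (le_trans ?_ (h n hn))
  have h2 : n + k ≤ Nat.nth Nat.Prime (n + k) :=
    (Nat.nth_strictMono Nat.infinite_setOfPred_prime).le_apply
  exact_mod_cast (Nat.le_add_right n k).trans h2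

/-- **Configurations with several parameters along consecutive gaps next to a record gap.**  For all
`k`, `l` and `δ > 0` there are `η > 0`, `c > 0`, `C` and `x₀` such that for all `x ≥ x₀`, all `H` with
`1 ≤ H ≤ c f(x)`, every set `A ⊆ ℤ^e` of upper Banach density at least `δ` (see `UpperDensity`) and all
`l + 1` linear maps `v ↦ ∑ v_i F_{t,i}` from `ℤ^k` to `ℤ^e` there are at least `x^(7/8)` blocks
`p_n, …, p_(n+k)` of consecutive primes up to `x`, with all `k` gaps between `H` and `C H` and the
gap before `p_n` at least `c f(x)`, such that the points `a` for which `A` contains all the points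
`a + d_n F_{t,0} + … + d_(n+k-1) F_{t,k-1}`, `t = 0, …, l`, have upper Banach density at least
`η`. -/
theorem result (k l : ℕ) (δ : ℝ) (hδ : 0 < δ) : ∃ η : ℝ, 0 < η ∧ ∃ c C : ℝ, 0 < c ∧
    ∃ x₀ : ℝ, ∀ x : ℝ, x₀ ≤ x → ∀ H : ℝ, 1 ≤ H → H ≤ c * f x →
    ∀ (e : ℕ) (A : Set (Fin e → ℤ)), UpperDensity A δ → ∀ F : Fin (l + 1) → Fin k → Fin e → ℤ,
    x ^ (7 / 8 : ℝ) ≤ (Set.ncard {n : ℕ | Cluster c C x H k n ∧
      UpperDensity {a | ∀ t, a + ∑ i : Fin k, d (n + i) • F t i ∈ A} η} : ℝ) := by
  obtain ⟨η, hη, c, C, hc, -, h⟩ := Pool.Agent.Y898.SzMulti.sz_gaps k l δ hδ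
  obtain ⟨x₀, hx₀⟩ := Filter.eventually_atTop.1 h
  refine ⟨η, hη, c, C, hc, x₀, fun x hx H hH hHc e A hA F => (hx₀ x hx H hH hHc e A hA F).trans ?_⟩
  rw [Nat.cast_le]
  refine Set.ncard_le_ncard ?_ (finite_of (k := k) fun n hn => hn.1.2.1)
  intro n hn
  exact cluster_of hn

end Pool.Agent.Results.MP_f9960f_nt.ProgressionsWithGapsAsSides
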